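import Pool.Agent.N740.HK.Gap

/-!
# Project SM, part D (helper853): the exponent of the maximal gaps from the exponents of the density

Adapted events whose conditional probabilities lie between `(log n) ^ (-b - d)` and
`(log n) ^ (-a + d)`.
-/

set_option autoImplicit false
set_option linter.unusedSectionVars false

open MeasureTheory Filter Set
open scoped ENNReal Topology NNReal

namespace Pool.Agent.N853.SM

open Pool.Agent.R528.RM Pool.Agent.N740.HK

variable {Ω : Type} {m0 : MeasurableSpace Ω} {μ : Measure Ω} [IsProbabilityMeasure μ]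
  {ℱ : Filtration ℕ m0} {A : ℕ → Set Ω}

/-- the density is outside the allowed range -/
def VE (μ : Measure Ω) (ℱ : Filtration ℕ m0) (A : ℕ → Set Ω) (a b d : ℝ) (n : ℕ) : Set Ω :=
  {ω | ¬ (Real.log n ^ (-b - d) ≤ dens μ ℱ A n ω ∧ dens μ ℱ A n ω ≤ Real.log n ^ (-a + d))}

lemma VE_meas (a b d : ℝ) (n : ℕ) : MeasurableSet[ℱ n] (VE μ ℱ A a b d n) := by
  have h2 : MeasurableSet {x : ℝ | ¬ (Real.log n ^ (-b - d) ≤ x ∧ x ≤ Real.log n ^ (-a + d))} :=
    measurableSet_Icc.compl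
  exact (dens_meas n).measurable h2

/-- no violation and no member in a run of length `j` after `t` -/
def NR (A V : ℕ → Set Ω) (t : ℕ) : ℕ → Set Ω
  | 0 => univ
  | j + 1 => (NR A V t j \ V (t + j)) \ A (t + j + 1)

lemma NR_meas (hA : ∀ n, MeasurableSet[ℱ n] (A n)) {V : ℕ → Set Ω}
    (hV : ∀ n, MeasurableSet[ℱ n] (V n)) (t j : ℕ) : MeasurableSet[ℱ (t + j)] (NR A V t j) := by
  induction j with
  | zero => exact @MeasurableSet.univ _ (ℱ (t + 0))
  | succ j ih =>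
    have h1 := ℱ.mono (Nat.le_succ (t + j)) _ (ih.diff (hV (t + j)))
    exact MeasurableSet.diff h1 (hA (t + j + 1))

theorem NR_le (hA : ∀ n, MeasurableSet[ℱ n] (A n)) {V : ℕ → Set Ω}
    (hV : ∀ n, MeasurableSet[ℱ n] (V n)) {l : ℝ} (hl1 : l ≤ 1) (t J : ℕ)
    (hl : ∀ n, t ≤ n → n < t + J → ∀ ω, ω ∉ V n → l ≤ dens μ ℱ A n ω) :
    ∀ j ≤ J, μ.real (NR A V t j) ≤ (1 - l) ^ j := by
  intro j
  induction j with
  | zero =>
    intro _
    rw [pow_zero]
    exact measureReal_le_one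
  | succ j ih =>
    intro hj
    have ih := ih (by omega)
    have hB : MeasurableSet[ℱ (t + j)] (NR A V t j \ V (t + j)) := (NR_meas hA hV t j).diff (hV _)
    have hlow := lower_meas (μ := μ) hA (t + j) hB (l := l)
      (fun ω hω => hl (t + j) (by omega) (by omega) ω hω.2)
    have hA' : MeasurableSet (A (t + j + 1)) := ℱ.le _ _ (hA _)
    have h1 := measureReal_inter_add_sdiff (μ := μ) (s := NR A V t j \ V (t + j)) hA'
    have h2 : NR A V t (j + 1) = (NR A V t j \ V (t + j)) \ A (t + j + 1) := rfl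
    have h3 : μ.real (NR A V t j \ V (t + j)) ≤ μ.real (NR A V t j) :=
      measureReal_mono sdiff_subset
    have h4 : 0 ≤ μ.real (NR A V t j \ V (t + j)) := measureReal_nonneg
    rw [h2, pow_succ]
    have h5 : (1 - l) * μ.real (NR A V t j \ V (t + j)) ≤ (1 - l) * μ.real (NR A V t j) :=
      mul_le_mul_of_nonneg_left h3 (by linarith)
    have h6 : (1 - l) * μ.real (NR A V t j) ≤ (1 - l) * (1 - l) ^ j :=
      mul_le_mul_of_nonneg_left ih (by linarith)
    linarith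

lemma not_mem_NR {V : ℕ → Set Ω} (t : ℕ) (ω : Ω) (hV : ∀ n, t ≤ n → ω ∉ V n) :
    ∀ j, ω ∉ NR A V t j → ∃ r, 1 ≤ r ∧ r ≤ j ∧ ω ∈ A (t + r) := by
  intro j
  induction j with
  | zero => intro h; exact absurd (mem_univ ω) h
  | succ j ih =>
    intro h
    by_cases h1 : ω ∈ NR A V t j
    · have h2 : NR A V t (j + 1) = (NR A V t j \ V (t + j)) \ A (t + j + 1) := rfl
      rw [h2] at h
      have h3 : ω ∈ A (t + j + 1) := by
        by_contra h3
        exact h ⟨⟨h1, hV _ (by omega)⟩, h3⟩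
      exact ⟨j + 1, by omega, le_rfl, h3⟩
    · obtain ⟨r, h2, h3, h4⟩ := ih h1
      exact ⟨r, h2, by omega, h4⟩

lemma tendsto_logN' : Tendsto (fun n : ℕ => Real.log n) atTop atTop :=
  Real.tendsto_log_atTop.comp tendsto_natCast_atTop_atTop

/-- the analysis for the upper bound -/
lemma up_ana (b d : ℝ) (hb : 0 ≤ b) (hd : 0 < d) : ∀ᶠ t : ℕ in atTop,
    2 ≤ t ∧ 1 ≤ Real.log t ∧ ((⌊Real.log t ^ (1 + b + 2 * d)⌋₊ : ℕ) : ℝ) ≤ t ∧
    2 * Real.log t ≤ (2 * Real.log t) ^ (-b - d) * (⌊Real.log t ^ (1 + b + 2 * d)⌋₊ : ℕ) := by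
  have h1 : ∀ᶠ x : ℝ in atTop, x ^ (1 + b + 2 * d) ≤ Real.exp (1 * x) := by
    have := (isLittleO_rpow_exp_pos_mul_atTop (1 + b + 2 * d) one_pos).def one_pos
    filter_upwards [this, eventually_ge_atTop 0] with x hx hx0
    rw [Real.norm_of_nonneg (by positivity), Real.norm_of_nonneg (by positivity)] at hx
    linarith
  have h2 : ∀ᶠ x : ℝ in atTop, (2 : ℝ) ^ (2 + b + d) ≤ x ^ d :=
    (tendsto_rpow_atTop hd).eventually_ge_atTop _
  filter_upwards [tendsto_logN'.eventually h1, tendsto_logN'.eventually h2,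
    tendsto_logN'.eventually_ge_atTop 2, eventually_ge_atTop 2] with t g1 g2 g3 g4
  have ht : (0 : ℝ) < t := by
    have : 0 < t := by omega
    exact_mod_cast this
  set x := Real.log t with hx
  have hx0 : 0 < x := by linarith
  refine ⟨g4, by linarith, ?_, ?_⟩
  · refine (Nat.floor_le (by positivity)).trans (g1.trans ?_)
    rw [one_mul, hx, Real.exp_log ht]
  · have e1 : x ≤ x ^ (1 + b + 2 * d) := by
      calc x = x ^ (1 : ℝ) := (Real.rpow_one x).symm
        _ ≤ _ := Real.rpow_le_rpow_of_exponent_le (by linarith) (by linarith)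
    have e2 : x ^ (1 + b + 2 * d) / 2 ≤ (⌊x ^ (1 + b + 2 * d)⌋₊ : ℕ) := by
      have := Nat.lt_floor_add_one (x ^ (1 + b + 2 * d))
      linarith
    have e3 : 0 < (2 * x) ^ (-b - d) := by positivity
    refine le_trans ?_ (mul_le_mul_of_nonneg_left e2 e3.le)
    have e4 : (2 * x) ^ (-b - d) = 2 ^ (-b - d) * x ^ (-b - d) :=
      Real.mul_rpow (by norm_num) hx0.le
    have e5 : x ^ (-b - d) * x ^ (1 + b + 2 * d) = x * x ^ d := by
      rw [← Real.rpow_add hx0, show -b - d + (1 + b + 2 * d) = 1 + d by ring,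
        Real.rpow_add hx0, Real.rpow_one]
    have e6 : (2 : ℝ) ^ (-b - d) * 2 ^ (2 + b + d) = 4 := by
      rw [← Real.rpow_add (by norm_num), show -b - d + (2 + b + d) = 2 by ring]
      norm_num
    have e7 : (0 : ℝ) < 2 ^ (-b - d) := by positivity
    calc 2 * x = (2 ^ (-b - d) * 2 ^ (2 + b + d)) / 2 * x := by rw [e6]; ring
      _ ≤ (2 ^ (-b - d) * x ^ d) / 2 * x := by
          refine mul_le_mul_of_nonneg_right ?_ hx0.le
          have := mul_le_mul_of_nonneg_left g2 e7.le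
          linarith
      _ = 2 ^ (-b - d) * (x * x ^ d) / 2 := by ring
      _ = 2 ^ (-b - d) * (x ^ (-b - d) * x ^ (1 + b + 2 * d)) / 2 := by rw [e5]
      _ = _ := by rw [e4]; ring

/-- gaps are not longer than `(log x) ^ (1 + b + δ)` -/
def UpE (S : Set ℕ) (b : ℝ) : Prop := ∀ δ : ℝ, 0 < δ → ∀ᶠ x : ℕ in atTop, ∃ r : ℕ, 1 ≤ r ∧
  (r : ℝ) ≤ Real.log x ^ (1 + b + δ) ∧ x + r ∈ S

/-- gaps of length at least `(log x) ^ (1 + a - δ)` at every scale -/
def LowE (S : Set ℕ) (a : ℝ) : Prop := ∀ δ : ℝ, 0 < δ → ∀ᶠ i : ℕ in atTop, ∃ P g : ℕ,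
  2 ^ i < P ∧ P + g ≤ 2 ^ (i + 1) ∧ Real.log ((2 : ℝ) ^ i) ^ (1 + a - δ) ≤ g ∧ 0 < g ∧ P ∈ S ∧
    P + g ∈ S ∧ ∀ r, 0 < r → r < g → P + r ∉ S

/-- the densities are eventually in the allowed range -/
def Rg (μ : Measure Ω) (ℱ : Filtration ℕ m0) (A : ℕ → Set Ω) (a b : ℝ) : Prop :=
  ∀ᵐ ω ∂μ, ∀ δ : ℝ, 0 < δ → ∀ᶠ n : ℕ in atTop, Real.log n ^ (-b - δ) ≤ dens μ ℱ A n ω ∧
    dens μ ℱ A n ω ≤ Real.log n ^ (-a + δ)

lemma no_VE {a b d : ℝ} (hd : 0 < d) {ω : Ω} (h : ∀ δ : ℝ, 0 < δ → ∀ᶠ n : ℕ in atTop,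
    Real.log n ^ (-b - δ) ≤ dens μ ℱ A n ω ∧ dens μ ℱ A n ω ≤ Real.log n ^ (-a + δ)) :
    ∃ n₀ : ℕ, ∀ n, n₀ ≤ n → ω ∉ VE μ ℱ A a b d n := by
  rw [← eventually_atTop]
  filter_upwards [h d hd] with n hn
  simp only [VE, mem_ofPred_eq, not_not]
  exact hn

theorem up_one (hA : ∀ n, MeasurableSet[ℱ n] (A n)) {a b d : ℝ} (hb : 0 ≤ b) (hd : 0 < d)
    (hr : Rg μ ℱ A a b) : ∀ᵐ ω ∂μ, ∀ᶠ x : ℕ in atTop, ∃ r : ℕ, 1 ≤ r ∧
      (r : ℝ) ≤ Real.log x ^ (1 + b + 2 * d) ∧ ω ∈ A (x + r) := by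
  obtain ⟨t₀, ht₀⟩ := eventually_atTop.1 (up_ana b d hb hd)
  set H : ℕ → ℕ := fun t => ⌊Real.log t ^ (1 + b + 2 * d)⌋₊ with hH
  set V := VE μ ℱ A a b d with hV
  set E : ℕ → Set Ω := fun t => if t₀ ≤ t then NR A V t (H t) else ∅ with hE
  have hVm : ∀ n, MeasurableSet[ℱ n] (V n) := fun n => VE_meas a b d n
  have hEb : ∀ t, μ.real (E t) ≤ 1 / (t : ℝ) ^ 2 := by
    intro t
    by_cases ht : t₀ ≤ t
    · simp only [hE, if_pos ht]
      obtain ⟨g1, g2, g3, g4⟩ := ht₀ t ht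
      have htp : (0 : ℝ) < t := by
        have : 0 < t := by omega
        exact_mod_cast this
      set x := Real.log t with hx
      set l : ℝ := (2 * x) ^ (-b - d) with hl
      have hl0 : 0 < l := by positivity
      have hl1 : l ≤ 1 := Real.rpow_le_one_of_one_le_of_nonpos (by linarith) (by linarith)
      have h1 := NR_le (μ := μ) hA hVm hl1 t (H t) (by
        intro n hn1 hn2 ω hω
        simp only [hV, VE, mem_ofPred_eq, not_not] at hω
        refine le_trans ?_ hω.1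
        have e1 : (t : ℝ) ≤ n := by exact_mod_cast hn1
        have e2 : (n : ℝ) ≤ t + t := by
          have : n ≤ t + H t := hn2.le
          have : (n : ℝ) ≤ t + H t := by exact_mod_cast this
          linarith
        have e3 : x ≤ Real.log n := Real.log_le_log htp e1
        have e4 : Real.log n ≤ 2 * x := by
          have h2t : (2 : ℝ) ≤ t := by exact_mod_cast g1
          have : Real.log n ≤ Real.log ((t : ℝ) * t) :=
            Real.log_le_log (by linarith) (by nlinarith)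
          rw [Real.log_mul htp.ne' htp.ne'] at this
          linarith
        exact Real.rpow_le_rpow_of_nonpos (by linarith) e4 (by linarith)) (H t) le_rfl
      refine h1.trans ?_
      have h2 : (1 - l) ^ (H t) ≤ Real.exp (-(l * H t)) := by
        have h3 : 1 - l ≤ Real.exp (-l) := by
          have := Real.add_one_le_exp (-l)
          linarith
        refine (pow_le_pow_left₀ (by linarith) h3 _).trans (le_of_eq ?_)
        rw [← Real.exp_nat_mul]
        congr 1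
        ring
      refine h2.trans ?_
      have h3 : Real.exp (-(l * H t)) ≤ Real.exp (-(2 * x)) := Real.exp_le_exp.2 (by linarith)
      refine h3.trans (le_of_eq ?_)
      rw [Real.exp_neg, two_mul, Real.exp_add, hx, Real.exp_log htp]
      rw [one_div, sq]
    · simp only [hE, if_neg ht, measureReal_empty]
      positivity
  have hEs : ∑' i, μ (E i) ≠ ⊤ := by
    have h1 : ∀ i, μ (E i) = ENNReal.ofReal (μ.real (E i)) :=
      fun i => (ofReal_measureReal (measure_ne_top _ _)).symm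
    have h2 : Summable fun i => μ.real (E i) :=
      Summable.of_nonneg_of_le (fun i => measureReal_nonneg) hEb
        (Real.summable_one_div_nat_pow.2 (by norm_num))
    simp_rw [h1]
    rw [← ENNReal.ofReal_tsum_of_nonneg (fun i => measureReal_nonneg) h2]
    exact ENNReal.ofReal_ne_top
  filter_upwards [ae_eventually_notMem hEs, hr] with ω hω h2
  obtain ⟨n₀, hn₀⟩ := no_VE hd h2
  filter_upwards [hω, eventually_ge_atTop t₀, eventually_ge_atTop n₀] with t h1 ht hn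
  simp only [hE, if_pos ht] at h1
  obtain ⟨r, r1, r2, r3⟩ := not_mem_NR t ω (fun n hn' => hn₀ n (by omega)) (H t) h1
  refine ⟨r, r1, ?_, r3⟩
  obtain ⟨_, g2, _, _⟩ := ht₀ t ht
  have h3 : (r : ℝ) ≤ H t := by exact_mod_cast r2
  exact h3.trans (Nat.floor_le (by positivity))

theorem up_ae' (hA : ∀ n, MeasurableSet[ℱ n] (A n)) {a b : ℝ} (hb : 0 ≤ b)
    (hr : Rg μ ℱ A a b) : ∀ᵐ ω ∂μ, UpE {k | ω ∈ A k} b := by
  have h1 : ∀ k : ℕ, ∀ᵐ ω ∂μ, ∀ᶠ x : ℕ in atTop, ∃ r : ℕ, 1 ≤ r ∧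
      (r : ℝ) ≤ Real.log x ^ (1 + b + 2 * (1 / ((k : ℝ) + 1))) ∧ ω ∈ A (x + r) :=
    fun k => up_one hA hb (by positivity) hr
  filter_upwards [ae_all_iff.2 h1] with ω hω
  intro δ hδ
  obtain ⟨k, hk⟩ := exists_nat_one_div_lt (show 0 < δ / 2 by linarith)
  filter_upwards [hω k, tendsto_logN'.eventually_ge_atTop 1] with x hx h2
  obtain ⟨r, r1, r2, r3⟩ := hx
  exact ⟨r, r1, r2.trans (Real.rpow_le_rpow_of_exponent_le h2 (by linarith)), r3⟩

/-- the analysis for the lower bound -/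
lemma low_ana (a b d : ℝ) (ha : 0 < a) (hab : a ≤ b) (hd : 0 < d) (hda : 2 * d < a) :
    ∀ᶠ L : ℝ in atTop, 2 ≤ L ∧ L ^ (-a + d) ≤ 1 / 2 ∧ 1 ≤ L ^ (1 + a - 2 * d) ∧
      ∀ G M : ℕ, (G : ℝ) ≤ L ^ (1 + a - 2 * d) → Real.exp L ≤ (G + 2) * (M + 1) →
      L ≤ M * ((2 * L) ^ (-b - d) * ((1 - L ^ (-a + d)) ^ G * (2 * L) ^ (-b - d))) := by
  have t1 : ∀ᶠ L : ℝ in atTop, L ^ (1 + a - 2 * d) ≤ 1 / 8 * Real.exp (1 / 8 * L) := by
    have := (isLittleO_rpow_exp_pos_mul_atTop (1 + a - 2 * d)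
      (show (0 : ℝ) < 1 / 8 by norm_num)).def (show (0 : ℝ) < 1 / 8 by norm_num)
    filter_upwards [this, eventually_ge_atTop 0] with x hx hx0
    rw [Real.norm_of_nonneg (by positivity), Real.norm_of_nonneg (by positivity)] at hx
    exact hx
  have t2 : ∀ᶠ L : ℝ in atTop, (2 * L) ^ (2 * (b + d)) ≤ Real.exp (1 / 16 * (2 * L)) := by
    have h := (isLittleO_rpow_exp_pos_mul_atTop (2 * (b + d))
      (show (0 : ℝ) < 1 / 16 by norm_num)).def one_pos
    have h2 : Tendsto (fun L : ℝ => 2 * L) atTop atTop := tendsto_id.const_mul_atTop two_pos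
    filter_upwards [h2.eventually h, eventually_ge_atTop 0] with x hx hx0
    rw [Real.norm_of_nonneg (by positivity), Real.norm_of_nonneg (by positivity), one_mul] at hx
    exact hx
  have t3 : ∀ᶠ L : ℝ in atTop, L ^ (-a + d) ≤ 1 / 2 := by
    have h : Tendsto (fun L : ℝ => L ^ (-(a - d))) atTop (𝓝 0) :=
      tendsto_rpow_neg_atTop (by linarith)
    have h2 := h.eventually_le_const (show (0 : ℝ) < 1 / 2 by norm_num)
    filter_upwards [h2] with L hL
    rwa [show -a + d = -(a - d) by ring]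
  have t4 : ∀ᶠ L : ℝ in atTop, L ^ (-d) ≤ 1 / 8 :=
    (tendsto_rpow_neg_atTop hd).eventually_le_const (show (0 : ℝ) < 1 / 8 by norm_num)
  filter_upwards [t1, t2, t3, t4, eventually_ge_atTop 16] with L g1 g2 g3 g4 g5
  have hL0 : 0 < L := by linarith
  have hpow1 : 1 ≤ L ^ (1 + a - 2 * d) := Real.one_le_rpow (by linarith) (by linarith)
  refine ⟨by linarith, g3, hpow1, fun G M hG hM => ?_⟩
  set u : ℝ := L ^ (-a + d) with hu
  have hu0 : 0 < u := by positivity
  -- `(1 - u) ^ G`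
  have hlog : -(2 * u) ≤ Real.log (1 - u) := by
    have h1 := Real.one_sub_inv_le_log_of_pos (show 0 < 1 - u by linarith)
    have h2 : -(2 * u) ≤ 1 - (1 - u)⁻¹ := by
      have h3 : (1 - u)⁻¹ ≤ 1 + 2 * u := by
        rw [inv_le_comm₀ (by linarith) (by linarith), inv_eq_one_div, div_le_iff₀ (by linarith)]
        nlinarith
      linarith
    linarith
  have hpow : Real.exp (-(L / 4)) ≤ (1 - u) ^ G := by
    have h1 : (1 - u) ^ G = Real.exp (G * Real.log (1 - u)) := by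
      rw [← Real.log_pow, Real.exp_log (pow_pos (by linarith) _)]
    rw [h1]
    apply Real.exp_le_exp.2
    have h2 : (G : ℝ) * (-(2 * u)) ≤ G * Real.log (1 - u) :=
      mul_le_mul_of_nonneg_left hlog (Nat.cast_nonneg G)
    have h3 : (G : ℝ) * u ≤ L / 8 := by
      have h4 : (G : ℝ) * u ≤ L ^ (1 + a - 2 * d) * u := mul_le_mul_of_nonneg_right hG hu0.le
      have h5 : L ^ (1 + a - 2 * d) * u = L * L ^ (-d) := by
        rw [hu, ← Real.rpow_add hL0, show 1 + a - 2 * d + (-a + d) = 1 + -d by ring,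
          Real.rpow_add hL0, Real.rpow_one]
      rw [h5] at h4
      nlinarith
    linarith
  have hl : Real.exp (-(L / 8)) ≤ (2 * L) ^ (-b - d) * (2 * L) ^ (-b - d) := by
    rw [← Real.rpow_add (by positivity), show -b - d + (-b - d) = -(2 * (b + d)) by ring,
      Real.rpow_neg (by positivity), Real.exp_neg]
    apply inv_anti₀ (by positivity)
    refine g2.trans (le_of_eq ?_)
    congr 1
    ring
  have hMl : Real.exp (1 / 2 * L + L / 8 + L / 4) ≤ M := by
    have h1 : ((G : ℝ) + 2) ≤ Real.exp (1 / 8 * L) / 2 := by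
      have h2 : 1 + 1 / 8 * L ≤ Real.exp (1 / 8 * L) := by
        have := Real.add_one_le_exp (1 / 8 * L)
        linarith
      have h3 : (G : ℝ) ≤ 1 / 8 * Real.exp (1 / 8 * L) := hG.trans g1
      have h5 : (Real.exp (1 / 16 * L)) ^ 2 = Real.exp (1 / 8 * L) := by
        rw [← Real.exp_nat_mul]
        congr 1
        push_cast
        ring
      have h6 : 1 + 1 / 16 * L + (1 / 16 * L) ^ 2 / 2 ≤ Real.exp (1 / 16 * L) :=
        by
          have := Real.quadratic_le_exp_of_nonneg (show 0 ≤ 1 / 16 * L by positivity)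
          linarith
      have h7 : (5 / 2 : ℝ) ≤ Real.exp (1 / 16 * L) := by nlinarith
      have h8 : (25 / 4 : ℝ) ≤ Real.exp (1 / 8 * L) := by rw [← h5]; nlinarith
      linarith
    have h2 : Real.exp L ≤ Real.exp (1 / 8 * L) / 2 * (M + 1) :=
      hM.trans (mul_le_mul_of_nonneg_right h1 (by positivity))
    have h3 : Real.exp L = Real.exp (1 / 8 * L) * Real.exp (1 / 2 * L + L / 8 + L / 4) := by
      rw [← Real.exp_add]
      congr 1
      ring
    rw [h3] at h2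
    have h4 : 0 < Real.exp (1 / 8 * L) := Real.exp_pos _
    have h5 : Real.exp (1 / 2 * L + L / 8 + L / 4) ≤ 1 / 2 * (M + 1) := by
      by_contra hcon
      push Not at hcon
      have := mul_lt_mul_of_pos_left hcon h4
      linarith
    have h6 : 1 ≤ Real.exp (1 / 2 * L + L / 8 + L / 4) := Real.one_le_exp (by positivity)
    linarith
  have hprod : Real.exp (-(L / 8)) * Real.exp (-(L / 4)) ≤
      (2 * L) ^ (-b - d) * ((1 - u) ^ G * (2 * L) ^ (-b - d)) := by
    calc Real.exp (-(L / 8)) * Real.exp (-(L / 4)) ≤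
        ((2 * L) ^ (-b - d) * (2 * L) ^ (-b - d)) * (1 - u) ^ G :=
          mul_le_mul hl hpow (Real.exp_pos _).le (by positivity)
      _ = _ := by ring
  have hfin : Real.exp (1 / 2 * L + L / 8 + L / 4) * (Real.exp (-(L / 8)) * Real.exp (-(L / 4))) ≤
      M * ((2 * L) ^ (-b - d) * ((1 - u) ^ G * (2 * L) ^ (-b - d))) :=
    mul_le_mul hMl hprod (by positivity) (Nat.cast_nonneg M)
  rw [← Real.exp_add, ← Real.exp_add] at hfin
  refine le_trans ?_ hfin
  have h1 : 1 / 2 * L + L / 8 + L / 4 + (-(L / 8) + -(L / 4)) = 1 / 2 * L := by ring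
  rw [h1]
  have h2 := Real.quadratic_le_exp_of_nonneg (show 0 ≤ 1 / 2 * L by positivity)
  nlinarith

theorem low_one (hA : ∀ n, MeasurableSet[ℱ n] (A n)) {a b d : ℝ} (ha : 0 < a) (hab : a ≤ b)
    (hd : 0 < d) (hda : 2 * d < a) (hr : Rg μ ℱ A a b) :
    ∀ᵐ ω ∂μ, ∀ᶠ i : ℕ in atTop, ∃ P g : ℕ, 2 ^ i < P ∧ P + g ≤ 2 ^ (i + 1) ∧
      Real.log ((2 : ℝ) ^ i) ^ (1 + a - 2 * d) ≤ g ∧ 0 < g ∧ ω ∈ A P ∧ ω ∈ A (P + g) ∧
      ∀ r, 0 < r → r < g → ω ∉ A (P + r) := by
  have hlog : Tendsto (fun i : ℕ => Real.log ((2 : ℝ) ^ i)) atTop atTop := by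
    have : (fun i : ℕ => Real.log ((2 : ℝ) ^ i)) = fun i : ℕ => (i : ℝ) * Real.log 2 := by
      funext i; rw [Real.log_pow]
    rw [this]
    exact tendsto_natCast_atTop_atTop.atTop_mul_const (Real.log_pos (by norm_num))
  obtain ⟨i₀, hi₀⟩ := eventually_atTop.1
    ((hlog.eventually (low_ana a b d ha hab hd hda)).and (eventually_ge_atTop 1))
  set Li : ℕ → ℝ := fun i => Real.log ((2 : ℝ) ^ i) with hLi
  set G : ℕ → ℕ := fun i => ⌊Li i ^ (1 + a - 2 * d)⌋₊ with hG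
  set H : ℕ → ℕ := fun i => G i + 2 with hH
  set M : ℕ → ℕ := fun i => 2 ^ i / H i with hM
  set T : ℕ → ℕ → ℕ := fun i m => 2 ^ i + H i * m with hT
  set V := VE μ ℱ A a b d with hV
  have hVm : ∀ n, MeasurableSet[ℱ n] (V n) := fun n => VE_meas a b d n
  set D : ℕ → ℕ → ℕ → Set Ω :=
    fun i _ m => pat A (T i m) (gp (G i)) ∪ WV V (T i m) (G i + 2) with hD
  set p : ℕ → ℝ := fun i => (2 * Li i) ^ (-b - d) * ((1 - Li i ^ (-a + d)) ^ G i *
    (2 * Li i) ^ (-b - d)) with hp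
  have hHM : ∀ i, H i * M i ≤ 2 ^ i := fun i => Nat.mul_div_le _ _
  have hHpos : ∀ i, 0 < H i := fun i => Nat.succ_pos _
  have hTM : ∀ i m, m < M i → T i m + H i ≤ 2 ^ (i + 1) := by
    intro i m hm
    have h3 : H i * (m + 1) ≤ 2 ^ i := le_trans (Nat.mul_le_mul_left _ hm) (hHM i)
    have e : T i m + H i = 2 ^ i + H i * (m + 1) := by simp only [hT]; ring
    rw [e, pow_succ]
    omega
  have hlogT : ∀ i m, 1 ≤ i → m < M i → ∀ n, T i m ≤ n → n < T i m + H i →
      Li i ≤ Real.log n ∧ Real.log n ≤ 2 * Li i := by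
    intro i m hi1 hm n hn1 hn2
    have h1 : (2 : ℝ) ^ i ≤ n := by
      have : 2 ^ i ≤ n := le_trans (Nat.le_add_right _ _) hn1
      exact_mod_cast this
    have h2 : (n : ℝ) ≤ 2 ^ i * 2 ^ i := by
      have : n ≤ 2 ^ (i + 1) := by
        have h3 := hTM i m hm
        omega
      have h3 : (n : ℝ) ≤ 2 ^ (i + 1) := by exact_mod_cast this
      refine h3.trans ?_
      rw [← pow_add]
      exact pow_le_pow_right₀ (by norm_num) (by omega)
    have h0 : (0 : ℝ) < 2 ^ i := by positivity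
    refine ⟨Real.log_le_log h0 h1, ?_⟩
    have h3 : Real.log n ≤ Real.log (2 ^ i * 2 ^ i) := Real.log_le_log (by linarith) h2
    rw [Real.log_mul h0.ne' h0.ne'] at h3
    have h5 : Li i = Real.log ((2 : ℝ) ^ i) := rfl
    linarith
  have hDm : ∀ i, i₀ ≤ i → ∀ k < 1, ∀ m < M i,
      MeasurableSet[ℱ (2 ^ i + H i * (m + 1))] (D i k m) := by
    intro i _ k _ m _
    have h2 : T i m + (G i + 2) ≤ 2 ^ i + H i * (m + 1) := by
      have e : 2 ^ i + H i * (m + 1) = T i m + H i := by simp only [hT]; ring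
      rw [e]
    have h3 := pat_meas hA (gp (G i)) (T i m)
    rw [gp_length] at h3
    exact @MeasurableSet.union _ (ℱ (2 ^ i + H i * (m + 1))) _ _ (ℱ.mono h2 _ h3)
      (ℱ.mono h2 _ (WV_meas hVm _ _))
  have hpr : ∀ i, i₀ ≤ i → ∀ k < 1, ∀ m < M i, ∀ C, MeasurableSet[ℱ (2 ^ i + H i * m)] C →
      p i * μ.real C ≤ μ.real (C ∩ D i k m) := by
    intro i hi k _ m hm C hC
    obtain ⟨⟨hL2, hu1, _, _⟩, hi1⟩ := hi₀ i hi
    have hL2' : 2 ≤ Li i := hL2
    have hu1' : Li i ^ (-a + d) ≤ 1 / 2 := hu1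
    have hbd : ∀ n, T i m ≤ n → n < T i m + (gp (G i)).length → ∀ ω, ω ∉ V n →
        (2 * Li i) ^ (-b - d) ≤ dens μ ℱ A n ω ∧ dens μ ℱ A n ω ≤ Li i ^ (-a + d) := by
      intro n hn1 hn2 ω hω
      rw [gp_length] at hn2
      obtain ⟨n1, n2⟩ := hlogT i m hi1 hm n hn1 hn2
      simp only [hV, VE, mem_ofPred_eq, not_not] at hω
      exact ⟨(Real.rpow_le_rpow_of_nonpos (by linarith) n2 (by linarith)).trans hω.1,
        hω.2.trans (Real.rpow_le_rpow_of_nonpos (by linarith) n1 (by linarith))⟩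
    have hl0 : 0 ≤ (2 * Li i) ^ (-b - d) := by positivity
    have hl1 : (2 * Li i) ^ (-b - d) ≤ 1 :=
      Real.rpow_le_one_of_one_le_of_nonpos (by linarith) (by linarith)
    have hu0 : 0 ≤ Li i ^ (-a + d) := by positivity
    have main := pat_ge (μ := μ) hA (V := V) hVm hl0 hl1 hu0 (by linarith) (gp (G i)) (T i m)
      hbd C hC
    rw [gp_length, wt_gp] at main
    exact main
  have hsum : Summable fun i : ℕ => (((1 : ℕ) : ℝ)) * Real.exp (-(M i * p i)) := by
    refine Summable.of_norm_bounded_eventually_nat (g := fun i : ℕ => (1 / 2 : ℝ) ^ i)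
      (summable_geometric_of_lt_one (by norm_num) (by norm_num)) ?_
    filter_upwards [eventually_ge_atTop i₀] with i hi
    obtain ⟨⟨hL2, hu1, _, hana⟩, hi1⟩ := hi₀ i hi
    have hL2' : 2 ≤ Li i := hL2
    have hexp : Real.exp (Li i) = 2 ^ i := Real.exp_log (by positivity)
    have g3 : Real.exp (Li i) ≤ ((G i : ℝ) + 2) * (M i + 1) := by
      rw [hexp]
      have h3 : 2 ^ i ≤ H i * (M i + 1) := (Nat.lt_mul_div_succ (2 ^ i) (hHpos i)).le
      have h4 : H i = G i + 2 := rfl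
      rw [h4] at h3
      exact_mod_cast h3
    have g5 : Li i ≤ M i * p i := hana (G i) (M i) (Nat.floor_le (by positivity)) g3
    rw [Real.norm_eq_abs, abs_of_nonneg (by positivity), Nat.cast_one, one_mul]
    have g6 : (1 / 2 : ℝ) ^ i = Real.exp (-Li i) := by
      rw [Real.exp_neg, hexp, one_div, inv_pow]
    rw [g6]
    exact Real.exp_le_exp.2 (by linarith)
  have main := ev_blocks (μ := μ) (N := fun _ => 1) hDm p hpr hsum
  filter_upwards [main, hr] with ω hω h2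
  obtain ⟨n₀, hn₀⟩ := no_VE hd h2
  filter_upwards [hω, eventually_ge_atTop n₀] with i h3 hi
  obtain ⟨m, hm, h4⟩ := h3 0 one_pos
  have hTi : 2 ^ i ≤ T i m := Nat.le_add_right _ _
  have h9 : i < 2 ^ i := Nat.lt_two_pow_self
  rcases h4 with h4 | ⟨n, hn1, _, hn3⟩
  · obtain ⟨h5, h6, h7⟩ := mem_pat_gp A (G i) (T i m) ω h4
    refine ⟨T i m + 1, G i + 1, by omega, ?_, ?_, Nat.succ_pos _, h5, h7,
      fun r hr1 hr2 => h6 r hr1 (by omega)⟩
    · have := hTM i m hm
      have h8 : H i = G i + 2 := rfl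
      omega
    · have := (Nat.lt_floor_add_one (Li i ^ (1 + a - 2 * d))).le
      push_cast
      exact this
  · exact absurd hn3 (hn₀ n (by omega))

theorem low_ae' (hA : ∀ n, MeasurableSet[ℱ n] (A n)) {a b : ℝ} (ha : 0 < a) (hab : a ≤ b)
    (hr : Rg μ ℱ A a b) : ∀ᵐ ω ∂μ, LowE {k | ω ∈ A k} a := by
  have hd : ∀ k : ℕ, 0 < a / (4 * ((k : ℝ) + 1)) := fun k => by positivity
  have hd2 : ∀ k : ℕ, 2 * (a / (4 * ((k : ℝ) + 1))) < a := fun k => by
    have hk : (0 : ℝ) ≤ k := Nat.cast_nonneg k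
    rw [mul_div_assoc', div_lt_iff₀ (by positivity)]
    nlinarith
  filter_upwards [ae_all_iff.2 fun k : ℕ => low_one hA ha hab (hd k) (hd2 k) hr] with ω hω
  intro δ hδ
  obtain ⟨k, hk⟩ := exists_nat_one_div_lt (show 0 < δ / a by positivity)
  have hlog : Tendsto (fun i : ℕ => Real.log ((2 : ℝ) ^ i)) atTop atTop := by
    have : (fun i : ℕ => Real.log ((2 : ℝ) ^ i)) = fun i : ℕ => (i : ℝ) * Real.log 2 := by
      funext i; rw [Real.log_pow]
    rw [this]
    exact tendsto_natCast_atTop_atTop.atTop_mul_const (Real.log_pos (by norm_num))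
  filter_upwards [hω k, hlog.eventually_ge_atTop 1] with i hi h1
  obtain ⟨P, g, p1, p2, p3, p4, p5, p6, p7⟩ := hi
  refine ⟨P, g, p1, p2, le_trans (Real.rpow_le_rpow_of_exponent_le h1 ?_) p3, p4, p5, p6, p7⟩
  have h2 : 2 * (a / (4 * ((k : ℝ) + 1))) ≤ a * (1 / ((k : ℝ) + 1)) := by
    have : a * (1 / ((k : ℝ) + 1)) = 4 * (a / (4 * ((k : ℝ) + 1))) := by field_simp
    rw [this]
    have := hd k
    linarith
  have h3 : a * (1 / ((k : ℝ) + 1)) ≤ δ := by
    rw [lt_div_iff₀ ha] at hk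
    linarith
  linarith

/-- the largest difference of consecutive elements of `S`, the first one at most `x` -/
noncomputable def mg (S : Set ℕ) (x : ℝ) : ℕ :=
  sSup {g | ∃ p ∈ S, (p : ℝ) ≤ x ∧ p + g ∈ S ∧ 0 < g ∧ ∀ r, 0 < r → r < g → p + r ∉ S}

lemma UpE.infinite {S : Set ℕ} {b : ℝ} (h : UpE S b) : S.Infinite := by
  rw [Set.infinite_iff_exists_gt]
  intro K
  obtain ⟨x, hx, hK⟩ := ((h 1 one_pos).and (eventually_ge_atTop K)).exists
  obtain ⟨r, hr1, _, hr⟩ := hx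
  exact ⟨x + r, hr, by omega⟩

/-- upper bound for all the gaps -/
lemma gap_bound {S : Set ℕ} {b : ℝ} (hb : 0 ≤ b) (h : UpE S b) {δ : ℝ} (hδ : 0 < δ) :
    ∃ C : ℕ, ∀ x : ℝ, ∀ g ∈ {g | ∃ p ∈ S, (p : ℝ) ≤ x ∧ p + g ∈ S ∧ 0 < g ∧
      ∀ r, 0 < r → r < g → p + r ∉ S}, (g : ℝ) ≤ max (C : ℝ) (Real.log x ^ (1 + b + δ)) := by
  obtain ⟨t₀, ht₀⟩ := eventually_atTop.1 ((h δ hδ).and (eventually_ge_atTop 1))
  obtain ⟨⟨r₀, r1, r2, r3⟩, ht1⟩ := ht₀ t₀ le_rfl
  refine ⟨t₀ + r₀, fun x g hg => ?_⟩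
  obtain ⟨p, hp, hpx, hpg, hg0, hgap⟩ := hg
  by_cases hpt : t₀ ≤ p
  · obtain ⟨⟨r, s1, s2, s3⟩, hp1⟩ := ht₀ p hpt
    refine le_trans ?_ (le_max_right _ _)
    have h1 : g ≤ r := by
      by_contra hcon
      push Not at hcon
      exact hgap r s1 hcon s3
    have h2 : (g : ℝ) ≤ r := by exact_mod_cast h1
    have hp1' : (1 : ℝ) ≤ p := by exact_mod_cast hp1
    refine h2.trans (s2.trans ?_)
    exact Real.rpow_le_rpow (Real.log_nonneg hp1') (Real.log_le_log (by linarith) hpx)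
      (by linarith)
  · push Not at hpt
    refine le_trans ?_ (le_max_left _ _)
    have h1 : g ≤ t₀ + r₀ := by
      by_contra hcon
      push Not at hcon
      have h2 := hgap (t₀ + r₀ - p) (by omega) (by omega)
      rw [show p + (t₀ + r₀ - p) = t₀ + r₀ by omega] at h2
      exact h2 r3
    exact_mod_cast h1

theorem mg_law {S : Set ℕ} {a b : ℝ} (ha : 0 < a) (hb : 0 ≤ b) (hup : UpE S b)
    (hlow : LowE S a) {ε : ℝ} (hε : 0 < ε) :
    ∀ᶠ x : ℝ in atTop, Real.log x ^ (1 + a - ε) ≤ mg S x ∧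
      (mg S x : ℝ) ≤ Real.log x ^ (1 + b + ε) := by
  obtain ⟨C, hC⟩ := gap_bound hb hup hε
  have hbdd : ∀ x : ℝ, BddAbove {g | ∃ p ∈ S, (p : ℝ) ≤ x ∧ p + g ∈ S ∧ 0 < g ∧
      ∀ r, 0 < r → r < g → p + r ∉ S} := by
    intro x
    refine ⟨⌈max (C : ℝ) (Real.log x ^ (1 + b + ε))⌉₊, fun g hg => ?_⟩
    have h1 := (hC x g hg).trans (Nat.le_ceil _)
    exact_mod_cast h1
  set δ : ℝ := min (ε / 2) (1 / 2) with hδ
  have hδ0 : 0 < δ := lt_min (by linarith) (by norm_num)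
  have hδ1 : δ ≤ 1 / 2 := min_le_right _ _
  have hδ2 : δ ≤ ε / 2 := min_le_left _ _
  obtain ⟨i₀, hi₀⟩ := eventually_atTop.1 (hlow δ hδ0)
  have t1 : ∀ᶠ x : ℝ in atTop, (2 : ℝ) ^ (1 + a - δ) ≤ Real.log x ^ (ε / 2) :=
    ((tendsto_rpow_atTop (by linarith)).comp Real.tendsto_log_atTop).eventually_ge_atTop _
  have t2 : ∀ᶠ x : ℝ in atTop, (C : ℝ) ≤ Real.log x ^ (1 + b + ε) :=
    ((tendsto_rpow_atTop (by linarith)).comp Real.tendsto_log_atTop).eventually_ge_atTop _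
  filter_upwards [t1, t2, Real.tendsto_log_atTop.eventually_ge_atTop 4,
    eventually_ge_atTop ((2 : ℝ) ^ (i₀ + 2)), eventually_ge_atTop 4] with x g1 g2 g3 g4 g5
  constructor
  · -- lower bound
    have hx0 : 0 < x := by linarith
    set N : ℕ := ⌊x⌋₊ with hN
    have hNx : (N : ℝ) ≤ x := Nat.floor_le hx0.le
    have hN1 : 2 ^ (i₀ + 2) ≤ N := Nat.le_floor (by exact_mod_cast g4)
    set j : ℕ := Nat.log 2 N with hj
    have hN0 : N ≠ 0 := by
      have : 0 < 2 ^ (i₀ + 2) := by positivity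
      omega
    have hj1 : i₀ + 2 ≤ j := by
      rw [hj]
      exact Nat.le_log_of_pow_le (by norm_num) hN1
    have hj2 : 2 ^ j ≤ N := Nat.pow_log_le_self 2 hN0
    have hj3 : N < 2 ^ (j + 1) := Nat.lt_pow_succ_log_self (by norm_num) N
    obtain ⟨i, hi⟩ : ∃ i, j = i + 1 := ⟨j - 1, by omega⟩
    obtain ⟨P, g, p1, p2, p3, p4, p5, p6, p7⟩ := hi₀ i (by omega)
    have hPx : (P : ℝ) ≤ x := by
      have h1 : P ≤ N := by
        rw [hi] at hj2
        omega
      have h2 : (P : ℝ) ≤ N := by exact_mod_cast h1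
      linarith
    have hg : g ≤ mg S x := le_csSup (hbdd x) ⟨P, p5, hPx, p6, p4, p7⟩
    have hg' : (g : ℝ) ≤ mg S x := by exact_mod_cast hg
    refine le_trans ?_ (p3.trans hg')
    -- `log x ≤ 2 log 2 ^ i`
    have h1 : x < 2 ^ (i + 2) := by
      have h2 : x < N + 1 := Nat.lt_floor_add_one x
      have h3 : (N : ℝ) + 1 ≤ 2 ^ (i + 2) := by
        have : N + 1 ≤ 2 ^ (i + 2) := by
          rw [hi] at hj3
          exact hj3
        exact_mod_cast this
      linarith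
    have h2 : Real.log x ≤ Real.log ((2 : ℝ) ^ i) + 2 * Real.log 2 := by
      have h3 := Real.log_le_log hx0 h1.le
      rw [pow_add, Real.log_mul (by positivity) (by norm_num), Real.log_pow 2 2] at h3
      push_cast at h3
      linarith
    have hl2 := Real.log_two_lt_d9
    have h3 : Real.log x / 2 ≤ Real.log ((2 : ℝ) ^ i) := by linarith
    have h4 : (Real.log x / 2) ^ (1 + a - δ) ≤ Real.log ((2 : ℝ) ^ i) ^ (1 + a - δ) :=
      Real.rpow_le_rpow (by linarith) h3 (by linarith)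
    refine le_trans ?_ h4
    rw [Real.div_rpow (by linarith) (by norm_num), le_div_iff₀ (by positivity)]
    calc Real.log x ^ (1 + a - ε) * 2 ^ (1 + a - δ) ≤
        Real.log x ^ (1 + a - ε) * Real.log x ^ (ε / 2) :=
          mul_le_mul_of_nonneg_left g1 (by positivity)
      _ = Real.log x ^ (1 + a - ε / 2) := by
          rw [← Real.rpow_add (by linarith)]
          congr 1
          ring
      _ ≤ _ := Real.rpow_le_rpow_of_exponent_le (by linarith) (by linarith)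
  · -- upper bound
    by_cases hne : ({g | ∃ p ∈ S, (p : ℝ) ≤ x ∧ p + g ∈ S ∧ 0 < g ∧
      ∀ r, 0 < r → r < g → p + r ∉ S} : Set ℕ).Nonempty
    · have h1 := Nat.sSup_mem hne (hbdd x)
      have h2 := hC x _ h1
      rwa [max_eq_right g2] at h2
    · rw [Set.not_nonempty_iff_eq_empty] at hne
      have h1 : mg S x = 0 := by
        unfold mg
        rw [hne]
        simp
      rw [h1]
      push_cast
      have : 0 < Real.log x := by linarith
      positivity

theorem mg_tendsto {S : Set ℕ} {κ : ℝ} (hκ : 0 < κ) (hup : UpE S κ) (hlow : LowE S κ) :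
    Tendsto (fun x : ℝ => Real.log (mg S x) / Real.log (Real.log x)) atTop (𝓝 (1 + κ)) := by
  rw [Metric.tendsto_atTop]
  intro ε hε
  have hll : Tendsto (fun x : ℝ => Real.log (Real.log x)) atTop atTop :=
    Real.tendsto_log_atTop.comp Real.tendsto_log_atTop
  obtain ⟨N, hN⟩ := eventually_atTop.1 ((mg_law hκ hκ.le hup hlow
    (show 0 < min (ε / 2) 1 by positivity)).and ((hll.eventually_gt_atTop 0).and
      (Real.tendsto_log_atTop.eventually_gt_atTop 0)))
  refine ⟨N, fun x hx => ?_⟩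
  obtain ⟨⟨h1, h2⟩, h3, h4⟩ := hN x hx
  have hmin : min (ε / 2) 1 ≤ ε / 2 := min_le_left _ _
  have hmin1 : min (ε / 2) 1 ≤ 1 := min_le_right _ _
  have h5 : 0 < Real.log x ^ (1 + κ - min (ε / 2) 1) := by positivity
  have h6 := Real.log_le_log h5 h1
  have h7 := Real.log_le_log (h5.trans_le h1) h2
  rw [Real.log_rpow h4] at h6 h7
  have h8 : 1 + κ - min (ε / 2) 1 ≤ Real.log (mg S x) / Real.log (Real.log x) := by
    rw [le_div_iff₀ h3]
    exact h6
  have h9 : Real.log (mg S x) / Real.log (Real.log x) ≤ 1 + κ + min (ε / 2) 1 := by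
    rw [div_le_iff₀ h3]
    exact h7
  rw [Real.dist_eq, abs_lt]
  constructor
  · linarith
  · linarith

end Pool.Agent.N853.SM
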